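import Pool.Agent.V5helper54.CB.Main2

/-!
# Prime pairs between consecutive cubes: a positive proportion of the differences in every window

`T h n` is the number of the pairs of primes `p`, `p + h` between `n³` and `(n + 1)³`; the question is about `T 2 n`.
The possible differences are `h < 3 n² + 3 n`.

Theorem. For all but `N / log^A N` of the `n ∈ (N, 2 N]`: in EVERY window `(h₀, h₀ + K]` of differences below
`(3 - δ) n²` with `K ≥ n^(1/2 + ε)` there are at least `c K` differences `h` with `T h n ≥ c n² / log² n` (the right order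
of magnitude), `c = c(ε, δ, A) > 0`.

Proof. First moment: the theorem on primes in almost all intervals of the length `x^(1/6 + ε)`, with an arbitrary power of
the logarithm (project CR6 of this team: Huxley's density theorem in the form of large values of Dirichlet polynomials;
here `Pool.Agent.V5helper50.PW.blocks`, `k = 0`). For all but few `n` only few of the blocks of length
`n^(1/2 + ε/2)` between `n³` and `(n+1)³` have few primes, so that for most primes `p` in the initial part most of the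
blocks in the window `(p + h₀, p + h₀ + K]` have many primes, for EVERY window. Second moment: Selberg's upper bound for
prime pairs in short intervals (`Pool.Agent.H262R2.UK.pair_bound`) and the mean square of `h / φ(h)` over short windows
(`Pool.Agent.H373R2.BH.rat_shift`).
-/

set_option autoImplicit false

open Finset

namespace Pool.Agent.Results.MP_d610d0_nt.EveryWindowOfDifferences

/-- the number of the `p` such that `p` and `p + h` are primes and `n³ < p`, `p + h < (n + 1)³` -/
def T (h n : ℕ) : ℕ := ((Ioo (n ^ 3) ((n + 1) ^ 3)).filter (fun p => p.Prime ∧ (p + h).Prime ∧ p + h < (n + 1) ^ 3)).card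

open Classical in
/-- **Main result.** For all `ε, δ > 0` and `A` there is `c > 0` such that for every large `N` all but at most
`N / log^A N` of the `n ∈ (N, 2 N]` have the following property: for all `h₀` and `K` with `K ≥ n^(1/2 + ε)` and
`h₀ + K ≤ (3 - δ) n²` at least `c K` of the `h` with `h₀ < h ≤ h₀ + K` satisfy `T h n ≥ c n² / log² n`. -/
theorem result (ε δ : ℝ) (hε : 0 < ε) (hδ : 0 < δ) (A : ℕ) :
    ∃ c : ℝ, 0 < c ∧ ∃ N₀ : ℕ, ∀ N : ℕ, N₀ ≤ N →
    (((Ioc N (2 * N)).filter (fun n : ℕ => ¬ ∀ h₀ K : ℕ, (n : ℝ) ^ (1 / 2 + ε) ≤ K →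
      (h₀ : ℝ) + K ≤ (3 - δ) * (n : ℝ) ^ 2 →
      c * K ≤ (((Ioc h₀ (h₀ + K)).filter (fun h => c * (n : ℝ) ^ 2 / Real.log n ^ 2 ≤ (T h n : ℝ))).card : ℝ))).card : ℝ) ≤
      N / Real.log N ^ A := by
  obtain ⟨c, hc, N₀, h⟩ := Pool.Agent.V5helper54.CB.main0 (min ε (1 / 4)) (min δ 1) (lt_min hε (by norm_num))
    (min_le_right _ _) (lt_min hδ one_pos) (min_le_right _ _) A
  refine ⟨c, hc, max N₀ 1, fun N hN => ?_⟩
  refine le_trans ?_ (h N (le_trans (le_max_left _ _) hN))
  have hN1 : 1 ≤ N := le_trans (le_max_right _ _) hN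
  have hsub : (Ioc N (2 * N)).filter (fun n : ℕ => ¬ ∀ h₀ K : ℕ, (n : ℝ) ^ (1 / 2 + ε) ≤ K →
      (h₀ : ℝ) + K ≤ (3 - δ) * (n : ℝ) ^ 2 →
      c * K ≤ (((Ioc h₀ (h₀ + K)).filter (fun h => c * (n : ℝ) ^ 2 / Real.log n ^ 2 ≤ (T h n : ℝ))).card : ℝ)) ⊆
      (Ioc N (2 * N)).filter (fun n : ℕ => ¬ ∀ h₀ K : ℕ, (n : ℝ) ^ (1 / 2 + min ε (1 / 4)) ≤ K →
      (h₀ : ℝ) + K ≤ (3 - min δ 1) * (n : ℝ) ^ 2 →
      c * K ≤ (((Ioc h₀ (h₀ + K)).filter (fun h => c * (n : ℝ) ^ 2 / Real.log n ^ 2 ≤
        (Pool.Agent.V5helper54.CB.T h n : ℝ))).card : ℝ)) := by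
    intro n hn
    rw [mem_filter] at hn ⊢
    refine ⟨hn.1, fun hall => hn.2 fun h₀ K h1 h2 => ?_⟩
    have hn1 : (1 : ℝ) ≤ n := by
      have := (mem_Ioc.1 hn.1).1
      exact_mod_cast (by omega : 1 ≤ n)
    refine hall h₀ K (le_trans (Real.rpow_le_rpow_of_exponent_le hn1 ?_) h1) (h2.trans ?_)
    · have := min_le_left ε (1 / 4)
      linarith
    · apply mul_le_mul_of_nonneg_right _ (by positivity)
      have := min_le_left δ 1
      linarith
  exact_mod_cast card_le_card hsub

end Pool.Agent.Results.MP_d610d0_nt.EveryWindowOfDifferences
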