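import Mathlib
import Pool.Agent.Y879.NP.Top
import Pool.Agent.V5helper49.CB.Blk
import Pool.Agent.V5helper49.CB.Gap

/-!
# Prime pairs with fixed differences, and blocks of primes, between consecutive cubes

The question is about the number `T(n)` of the pairs `p, p + 2` of primes between `n ^ 3` and
`(n + 1) ^ 3`. Here the difference `2` is replaced by other fixed differences `h`, and all `n` by a
positive proportion of the `n`; no average over `h` is taken. The pairs found are pairs of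
consecutive primes, they lie in residue classes, and they can be arranged in arithmetic progressions
of any length with a difference of at most a power of `log n`.

* (Differences.) Let `q` be squarefree, `a` coprime to `q`, `ε > 0`. There is an `M` such that for every
  multiple `N` of `M` and all sufficiently long intervals of integers `k` at least the proportion
  `2 / 5 - ε` of the `h = N k` are `Frequent`: for every `l` there are `C`, `k₀`, `κ > 0`, `ρ > 0` such
  that for arbitrarily large `x` at least `ρ x` of the `n ≤ x` have the following property: between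
  `n ^ 3` and `(n + 1) ^ 3` there are at least `κ n ^ 2 / (log n) ^ k₀` pairwise disjoint
  arithmetic progressions of length `l`, with differences `d`, `1 ≤ d ≤ (log n) ^ C`, such that for all
  their terms `p` the numbers `p` and `p + h` are consecutive primes, `p ≡ a mod q`, and
  `n ^ 3 < p < p + h < (n + 1) ^ 3`. In particular the number of these pairs tends to infinity with
  `n` (as `n ^ 2` divided by a power of `log n`) on a set of `n` of positive upper density.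

* (Blocks.) There are absolute constants `c > 0`, `n₀` such that for every set `S` of at least `n₀`
  natural numbers (no admissibility), all `R`, `l ≥ 1`, `r`, `a` and squarefree `q` with `a + s` coprime
  to `q` for all `s ∈ S` there are `C`, `κ > 0`, `ρ > 0` such that for ALL large `x` and all colourings
  `χ` with `r + 1` colours there is a subset `Q` of `S` with at least `c log |S|` elements, with
  colours `γ s`, such that for at least `ρ x` of the `n ≤ x` there are at least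
  `κ n ^ 2 / (log n) ^ |S|` pairwise disjoint arithmetic progressions of length `l` with
  differences `d`, `1 ≤ d ≤ (log n) ^ C`, such that all their terms `m` satisfy
  `n ^ 3 < m - R`, `m + max S + R < (n + 1) ^ 3`, `m ≡ a mod q`, the primes of
  `[m - R, m + max S + R]` are exactly the `m + s`, `s ∈ Q`, and `m + s` has the colour `γ s`.
-/

set_option autoImplicit false

open Filter

namespace Pool.Agent.Results.MP_d610d0_nt.FixedDifferences

/-- The terms `m, m + d, …, m + (l - 1) d` of the progression `u = (m, d)` of length `l`. -/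
def Terms (l : ℕ) (u : ℕ × ℕ) : Finset ℕ := (Finset.range l).image fun j => u.1 + j * u.2

/-- The progressions `u ∈ F` of length `l` are pairwise disjoint and have differences between `1` and
`(log n) ^ C`. -/
def Narrow (l C n : ℕ) (F : Finset (ℕ × ℕ)) : Prop :=
  (∀ u ∈ F, ∀ v ∈ F, u ≠ v → Disjoint (Terms l u) (Terms l v)) ∧
    ∀ u ∈ F, 1 ≤ u.2 ∧ (u.2 : ℝ) ≤ Real.log n ^ C

/-- `p` and `p + h` are consecutive primes between `n ^ 3` and `(n + 1) ^ 3`, and `p ≡ a mod q`. -/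
def Pair (q a h n p : ℕ) : Prop :=
  n ^ 3 < p ∧ p + h < (n + 1) ^ 3 ∧ p ≡ a [MOD q] ∧ p.Prime ∧ (p + h).Prime ∧
    ∀ r : ℕ, p < r → r < p + h → ¬ r.Prime

/-- For every `l` there are `C`, `k`, `κ > 0`, `ρ > 0` such that for arbitrarily large `x` there are
at least `ρ x` numbers `n ≤ x` for which there are at least `κ n ^ 2 / (log n) ^ k` disjoint
progressions of length `l` with differences at most `(log n) ^ C` all of whose terms `p` satisfy
`Pair q a h n p`. -/
def Frequent (q a h : ℕ) : Prop :=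
  ∀ l : ℕ, 1 ≤ l → ∃ (C k : ℕ) (κ ρ : ℝ), 0 < κ ∧ 0 < ρ ∧ ∃ᶠ x : ℕ in atTop,
    ∃ G : Finset ℕ, ρ * x ≤ (G.card : ℝ) ∧ ∀ n ∈ G, n ≤ x ∧ ∃ F : Finset (ℕ × ℕ),
      κ * (n : ℝ) ^ 2 / Real.log n ^ k ≤ F.card ∧ Narrow l C n F ∧
      ∀ u ∈ F, ∀ p ∈ Terms l u, Pair q a h n p

/-- The primes of the interval `[m - R, m + D + R]` are exactly the numbers `m + s`, `s ∈ Q`. -/
def ExactlyPrimes (R D : ℕ) (Q : Finset ℕ) (m : ℕ) : Prop :=
  ∀ p : ℕ, m ≤ p + R → p ≤ m + D + R → (p.Prime ↔ ∃ s ∈ Q, p = m + s)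

theorem narrow : Pool.Agent.V5helper49.NR.Nar :=
  fun S l δ ε hδ hε => Pool.Agent.Y879.NP.narrow S l δ ε hδ hε

theorem frequent_of {q a m h : ℕ} (hm : q * m = h) (H : m ∈ Pool.Agent.V5helper49.CB.GapC q a) :
    Frequent q a h := by
  intro l hl
  obtain ⟨C, k, κ, ρ, h1, h2, h3⟩ := H l h hl
  refine ⟨C, k, κ, ρ, h1, h2, h3.mono ?_⟩
  rintro x ⟨G, h4, h5⟩
  refine ⟨G, h4, fun n hn => ?_⟩
  obtain ⟨h6, -, F, h7, h8, h9⟩ := h5 n hn
  refine ⟨h6, F, h7, ⟨h8, fun u hu => ⟨(h9 u hu).1, (h9 u hu).2.1⟩⟩, fun u hu p hp => ?_⟩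
  obtain ⟨-, -, h10, h11⟩ := h9 u hu
  obtain ⟨h12, h13⟩ := h10 p hp
  obtain ⟨g1, g2, g3, g4⟩ := h11 p hp
  rw [hm] at g3 g4
  exact ⟨by omega, h13, g1, g2, g3, g4⟩

end Pool.Agent.Results.MP_d610d0_nt.FixedDifferences

open Pool.Agent.Results.MP_d610d0_nt.FixedDifferences in
theorem Pool.Agent.Results.MP_d610d0_nt.FixedDifferences.result :
    (∀ q a : ℕ, Squarefree q → a.Coprime q → ∀ ε : ℝ, 0 < ε →
      ∃ M : ℕ, 0 < M ∧ ∀ N : ℕ, 0 < N → M ∣ N → ∃ L : ℕ, ∀ T : ℕ, L ≤ T → ∀ u : ℕ,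
        (2 / 5 - ε) * (T : ℝ) ≤ ({k : ℕ | u < k ∧ k ≤ u + T ∧ Frequent q a (N * k)}.ncard : ℝ)) ∧
    ∃ (c : ℝ) (n₀ : ℕ), 0 < c ∧ ∀ S : Finset ℕ, n₀ ≤ S.card →
      ∀ R l r q a : ℕ, 1 ≤ l → Squarefree q → (∀ s ∈ S, (a + s).Coprime q) →
      ∃ (C : ℕ) (κ ρ : ℝ), 0 < κ ∧ 0 < ρ ∧ ∀ᶠ x : ℕ in atTop, ∀ χ : ℕ → Fin (r + 1),
        ∃ Q ⊆ S, c * Real.log S.card ≤ Q.card ∧ ∃ (γ : ℕ → Fin (r + 1)) (G : Finset ℕ),
          ρ * x ≤ (G.card : ℝ) ∧ ∀ n ∈ G, n ≤ x ∧ ∃ F : Finset (ℕ × ℕ),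
            κ * (n : ℝ) ^ 2 / Real.log n ^ S.card ≤ F.card ∧ Narrow l C n F ∧
            ∀ u ∈ F, ∀ m ∈ Terms l u, n ^ 3 + R < m ∧ m + S.sup id + R < (n + 1) ^ 3 ∧
              m ≡ a [MOD q] ∧ ExactlyPrimes R (S.sup id) Q m ∧ ∀ s ∈ Q, χ (m + s) = γ s := by
  constructor
  · intro q a hq ha ε hε
    have hq0 : 0 < q := Nat.pos_of_ne_zero hq.ne_zero
    obtain ⟨M, hM, h⟩ := Pool.Agent.V5helper49.CB.nfC Pool.Agent.Y520.NP.sh narrow q a hq ha ε hε
    refine ⟨q * M, Nat.mul_pos hq0 hM, fun N hN hd => ?_⟩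
    obtain ⟨t, rfl⟩ := hd
    have ht : 0 < t := Nat.pos_of_ne_zero (by rintro rfl; simp at hN)
    obtain ⟨L, hL⟩ := h (M * t) (Nat.mul_pos hM ht) (Dvd.intro _ rfl)
    refine ⟨L, fun T hT u => (hL T hT u).trans ?_⟩
    rw [Nat.cast_le]
    refine Set.ncard_le_ncard ?_ ((Set.finite_Ioc u (u + T)).subset fun k hk => ⟨hk.1, hk.2.1⟩)
    rintro k ⟨h1, h2, h3⟩
    exact ⟨h1, h2, frequent_of (by ring) h3⟩
  · obtain ⟨c, n₀, hc, h⟩ := Pool.Agent.V5helper49.CB.blocks Pool.Agent.Y879.NP.sets narrow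
    refine ⟨c, n₀, hc, fun S hS R l r q a hl hq hqa => ?_⟩
    obtain ⟨C, κ, ρ, hκ, hρ, hev⟩ := h S hS R l r q a hl hq hqa
    refine ⟨C, κ, ρ, hκ, hρ, hev.mono fun x hx χ => ?_⟩
    obtain ⟨Q, hQ, hQc, γ, G, hG, h1⟩ := hx χ
    refine ⟨Q, hQ, hQc, γ, G, hG, fun n hn => ?_⟩
    obtain ⟨h2, F, h3, h4, h5⟩ := h1 n hn
    exact ⟨h2, F, h3, ⟨h4, fun u hu => ⟨(h5 u hu).1, (h5 u hu).2.1⟩⟩, fun u hu => (h5 u hu).2.2⟩
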