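import Pool.Agent.V5helper49.NI.HerC
import Pool.Agent.V5helper49.NI.Famb
import Pool.Agent.Y291.NP.BLK
import Pool.Agent.Y879.NP.Top

/-!
# Infinite sets all of whose finite subsets are patterns of primes between consecutive cubes

The question is about the number `T(n)` of the pairs `p, p + 2` of primes between `n ^ 3` and
`(n + 1) ^ 3`. Here, for a positive proportion of the `n`, the pairs are replaced by tuples of primes of
every fixed finite pattern which is contained in a suitable infinite set, and this infinite set can be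
found inside every prescribed infinite set of integers.

Given countably many injective sequences `F j` of integers, finite colourings `χ j` of the primes,
squarefree moduli `q j` and residues `a j`, there is ONE increasing sequence `b` such that for every `j`
EVERY (finite or infinite) set `E = {F j (b i) : i ∈ I}`, all `i ∈ I` at least `j` and compatible with the
class `a j` modulo `q j`, has the following property, with suitable colours `γ`: for every `R` and every
length `l` there are `C`, `k`, `κ > 0`, `ρ > 0` such that for arbitrarily large `x` at least `ρ x` of the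
`n ≤ x` have at least `κ n ^ 2 / (log n) ^ k` pairwise disjoint progressions of length `l` with differences
between `1` and `(log n) ^ C` for all terms `m` of which `n ^ 3 + R < m`, `m + R < (n + 1) ^ 3`,
`m ≡ a j` modulo `q j`, the primes in `[m - R, m + R]` are exactly the `m + y`, `y ∈ E`, `|y| ≤ R`, and
`m + y` has the colour `γ y`.

In particular (`q = 1`) every infinite set `A` of integers contains an infinite set `B` such that for every
difference `h > 0` of two elements of `B` there are at least `κ n ^ 2 / (log n) ^ k` pairs of consecutive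
primes `p, p + h` between `n ^ 3` and `(n + 1) ^ 3`, for `n` in a set of positive upper density, and
similarly for blocks of consecutive primes whose pattern is any finite subset of `B`.
-/

set_option autoImplicit false

open Filter

namespace Pool.Agent.Results.MP_d610d0_nt.HereditaryDifferences

/-- The terms `m, m + d, …, m + (l - 1) d` of the progression `u = (m, d)` of length `l`. -/
def Terms (l : ℕ) (u : ℕ × ℕ) : Finset ℕ := (Finset.range l).image fun j => u.1 + j * u.2

/-- For every `l ≥ 1` there are `C`, `k`, `κ > 0`, `ρ > 0` such that for arbitrarily large `x` there are at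
least `ρ x` numbers `n ≤ x` with at least `κ n ^ 2 / (log n) ^ k` pairwise disjoint progressions of length
`l`, with differences between `1` and `(log n) ^ C`, all of whose terms `m` satisfy `n ^ 3 + R < m`,
`m + R < (n + 1) ^ 3` and `P m`. -/
def FrequentBetweenCubes (R : ℕ) (P : ℕ → Prop) : Prop :=
  ∀ l : ℕ, 1 ≤ l → ∃ (C k : ℕ) (κ ρ : ℝ), 0 < κ ∧ 0 < ρ ∧ ∃ᶠ x : ℕ in atTop,
    ∃ G : Finset ℕ, ρ * x ≤ (G.card : ℝ) ∧ ∀ n ∈ G, n ≤ x ∧ ∃ F : Finset (ℕ × ℕ),
      κ * (n : ℝ) ^ 2 / Real.log n ^ k ≤ F.card ∧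
      (∀ u ∈ F, ∀ v ∈ F, u ≠ v → Disjoint (Terms l u) (Terms l v)) ∧
      ∀ u ∈ F, 1 ≤ u.2 ∧ (u.2 : ℝ) ≤ Real.log n ^ C ∧
        ∀ m ∈ Terms l u, n ^ 3 + R < m ∧ m + R < (n + 1) ^ 3 ∧ P m

/-- The primes `p` with `|p - x| ≤ R` are exactly the `x + y` with `y ∈ E`, `|y| ≤ R`, and for these `y` the
prime `x + y` has the colour `γ y`. -/
def PrimesAround {r : ℕ} (χ : ℕ → Fin (r + 1)) (E : Set ℤ) (γ : ℤ → Fin (r + 1)) (R x : ℕ) : Prop :=
  ∀ y : ℤ, |y| ≤ R →
    (Nat.Prime ((x : ℤ) + y).toNat ↔ y ∈ E) ∧ (y ∈ E → χ ((x : ℤ) + y).toNat = γ y)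

theorem result (r : ℕ → ℕ) (χ : ∀ j, ℕ → Fin (r j + 1)) (F : ℕ → ℕ → ℤ)
    (hF : ∀ j, Function.Injective (F j)) (q : ℕ → ℕ) (hq : ∀ j, Squarefree (q j)) (a : ℕ → ℤ) :
    ∃ b : ℕ → ℕ, StrictMono b ∧ ∀ (j : ℕ) (I : Set ℕ),
      (∀ i ∈ I, j ≤ i ∧ IsCoprime (a j + F j (b i)) (q j : ℤ)) →
      ∃ γ : ℤ → Fin (r j + 1), ∀ R : ℕ, FrequentBetweenCubes R fun x =>
        (x : ℤ) ≡ a j [ZMOD q j] ∧ PrimesAround (χ j) {y | ∃ i ∈ I, F j (b i) = y} γ R x := by
  have hnar : Pool.Agent.V5helper49.NR.Nar := fun S l δ ε hδ hε => Pool.Agent.Y879.NP.narrow S l δ ε hδ hε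
  obtain ⟨b, hb, h⟩ := Pool.Agent.V5helper49.NI.C.mainN
    (Pool.Agent.V5helper49.NI.bmC (Pool.Agent.Y291.NP.blk Pool.Agent.V5helper49.NI.famb) hnar)
    r χ F hF q hq a
  refine ⟨b, hb, fun j I hI => ?_⟩
  obtain ⟨γ, hγ⟩ := h j I hI
  refine ⟨γ, fun R l hl => ?_⟩
  obtain ⟨C, k, κ, ρ, h1, h2, h3⟩ := hγ R l R hl
  refine ⟨C, k, κ, ρ, h1, h2, h3.mono ?_⟩
  rintro x ⟨G, h4, h5⟩
  refine ⟨G, h4, fun n hn => ?_⟩
  obtain ⟨h6, -, D, h7, h8, h9⟩ := h5 n hn
  refine ⟨h6, D, h7, h8, fun u hu => ?_⟩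
  obtain ⟨g1, g2, g3, g4⟩ := h9 u hu
  exact ⟨g1, g2, fun m hm => ⟨(g3 m hm).1, (g3 m hm).2, g4 m hm⟩⟩

end Pool.Agent.Results.MP_d610d0_nt.HereditaryDifferences
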