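import Pool.Agent.V5helper54.CB.Dense2

/-!
# Prime tuples between consecutive cubes, for every dense family of cubes and almost all differences

The question asks for pairs of primes `p`, `p + 2` between `n³` and `(n + 1)³`. Here the difference `2` is replaced by
`k` differences `h_i = M (c_i(n) + m_i)`, `M` the product of the primes `≤ y` (`y` between `K₀ log log N` and
`K₁ log log N`, so `M` is a power of `log N`): `c_1(n), …, c_k(n)` are ARBITRARY functions of `n`, and
`(m_1, …, m_k)` runs over a box of windows; the windows for `M m_i` may be as short as `N log^D N` (the interval between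
the cubes has the length `3 n²`).

Theorem. (1) For EVERY family of sets `S_n` of primes between `n³` and `(n + 1)³ - 2 Z`, `N < n ≤ 2 N`, with altogether
at least `N³ / log^A N` elements, and for all but a proportion `ε` of the `m`, at least
`(1 - ε) (∑ #S_n) / (3 V(y) log N)^k` of these `p` are such that all `p + h_i` are prime. (2) For EVERY set `B` of at
least `N / log^A N` of the integers `n ∈ (N, 2 N]`, and all but a proportion `ε` of the `m`, the number of the prime
tuples `p, p + h_1, …, p + h_k` between `n³` and `(n + 1)³`, summed over `n ∈ B`, is at least `(1 - ε)` times the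
expected number `∑_{n ∈ B} (3 n² - 2 Z) / (V(y)^k (3 log N)^(k+1))`.

Proof. The translations of dense sets in short windows (helper51, `Pool.Agent.V5helper51.SG.Short`; it rests on the L¹
estimate for `Λ` minus a model along arbitrary weights in windows of length `x^(1/3) log^D x`), applied to the images
of dense sets under the injections `(n, p) ↦ p + M c_i(n)` and iterated `k` times; the number of primes in the initial
parts of almost all of the intervals from the theorem on primes in almost all short intervals.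
-/

set_option autoImplicit false

open Finset

namespace Pool.Agent.Results.MP_d610d0_nt.TuplesInDenseFamilies

/-- the product of `1 - 1/q` over the primes `q ≤ y` -/
noncomputable def V (y : ℕ) : ℝ := ∏ q ∈ (Icc 1 y).filter Nat.Prime, (1 - 1 / (q : ℝ))

/-- the vectors `m` with `w_i < m_i ≤ w_i + G_i` -/
def Box {k : ℕ} (w G : Fin k → ℕ) : Finset (Fin k → ℕ) := Fintype.piFinset fun i => Ioc (w i) (w i + G i)

/-- the number of the primes `p` such that all `p + h_i` are prime and all lie between `n³` and `(n + 1)³` -/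
def T {k : ℕ} (h : Fin k → ℕ) (n : ℕ) : ℕ :=
  ((Ioo (n ^ 3) ((n + 1) ^ 3)).filter (fun p => p.Prime ∧ ∀ i, (p + h i).Prime ∧ p + h i < (n + 1) ^ 3)).card

open Classical in
/-- **Main result.** See the text above: (1) for arbitrary dense sets of primes, (2) for arbitrary dense families of
intervals between consecutive cubes. -/
theorem result (k A : ℕ) (ε : ℝ) (hε : 0 < ε) (hε1 : ε ≤ 1) : ∃ K₀ : ℕ, ∀ K₁ : ℕ, ∃ D N₀ : ℕ, ∀ N : ℕ, N₀ ≤ N →
    ∀ y : ℕ, K₀ * Real.log (Real.log N) ≤ y → y ≤ K₁ * Real.log (Real.log N) →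
    ∀ Z : ℕ, Z ≤ N ^ 2 → ∀ w G : Fin k → ℕ, (∀ i, primorial y * (w i + G i) ≤ Z ∧
      (N : ℝ) * Real.log N ^ D ≤ primorial y * G i) →
    ∀ c : Fin k → ℕ → ℕ, (∀ i n, primorial y * c i n ≤ Z) →
    (∀ S : ℕ → Finset ℕ, (∀ n, ∀ p ∈ S n, p.Prime ∧ n ^ 3 < p ∧ p + 2 * Z < (n + 1) ^ 3) →
      (N : ℝ) ^ 3 / Real.log N ^ A ≤ ∑ n ∈ Ioc N (2 * N), ((S n).card : ℝ) →
      (((Box w G).filter (fun m =>
        ∑ n ∈ Ioc N (2 * N), (((S n).filter (fun p => ∀ i, (p + primorial y * (c i n + m i)).Prime)).card : ℝ) <
        (1 - ε) * ((∑ n ∈ Ioc N (2 * N), ((S n).card : ℝ)) / (V y * (3 * Real.log N)) ^ k))).card : ℝ) ≤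
      ε * ∏ i, (G i : ℝ)) ∧
    ∀ B : Finset ℕ, B ⊆ Ioc N (2 * N) → (N : ℝ) / Real.log N ^ A ≤ B.card →
      (((Box w G).filter (fun m =>
        ∑ n ∈ B, (T (fun i => primorial y * (c i n + m i)) n : ℝ) <
        (1 - ε) * ((∑ n ∈ B, (3 * (n : ℝ) ^ 2 - 2 * Z)) / (V y ^ k * (3 * Real.log N) ^ (k + 1))))).card : ℝ) ≤
      ε * ∏ i, (G i : ℝ) :=
  Pool.Agent.V5helper54.CB.cubes2 k A ε hε hε1

end Pool.Agent.Results.MP_d610d0_nt.TuplesInDenseFamilies
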